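import Pool.Agent.helper95.FJ.SpecX

/-! # HKW: the frequency `0` with a weight in the norm, by partial summation -/

set_option autoImplicit false

open Finset

noncomputable section

namespace Pool.Agent.FJ

open Finset Pool.Agent.FI Pool.Agent.BP

private theorem HKW_mono (w : ℕ → ℝ) (hw : Monotone w) (h0 : ∀ n, 0 ≤ w n) (h1 : ∀ n, w n ≤ 1)
    (D : ℕ → ℂ) (U : ℕ) (M : ℝ) (hM : ∀ n ≤ U, ‖∑ k ∈ range (n + 1), D k‖ ≤ M) :
    ‖∑ k ∈ range (U + 1), (w k : ℂ) * D k‖ ≤ 2 * M := by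
  have hM0 : 0 ≤ M := (norm_nonneg _).trans (hM 0 (Nat.zero_le _))
  have h := Finset.sum_range_by_parts (fun k => (w k : ℂ)) D (U + 1)
  simp only [smul_eq_mul, Nat.add_sub_cancel] at h
  rw [h]
  refine (norm_sub_le _ _).trans ?_
  have e1 : ‖(w U : ℂ) * ∑ i ∈ range (U + 1), D i‖ ≤ 1 * M := by
    rw [norm_mul, Complex.norm_real, Real.norm_of_nonneg (h0 U)]
    exact mul_le_mul (h1 U) (hM U le_rfl) (norm_nonneg _) zero_le_one
  have e2 : ‖∑ i ∈ range U, ((w (i + 1) : ℂ) - (w i : ℂ)) * ∑ j ∈ range (i + 1), D j‖ ≤ 1 * M := by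
    refine (norm_sum_le _ _).trans ?_
    have e3 : ∀ i ∈ range U, ‖((w (i + 1) : ℂ) - (w i : ℂ)) * ∑ j ∈ range (i + 1), D j‖ ≤
        (w (i + 1) - w i) * M := by
      intro i hi
      rw [norm_mul, ← Complex.ofReal_sub, Complex.norm_real,
        Real.norm_of_nonneg (sub_nonneg.2 (hw (Nat.le_succ i)))]
      exact mul_le_mul_of_nonneg_left (hM i (mem_range.1 hi).le)
        (sub_nonneg.2 (hw (Nat.le_succ i)))
    refine (sum_le_sum e3).trans ?_
    rw [← sum_mul, Finset.sum_range_sub]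
    have := h0 0
    have := h1 U
    exact mul_le_mul_of_nonneg_right (by linarith) hM0
  linarith

private def HKW_cl (y : ℝ) : ℝ := max 0 (min 1 y)

private theorem HKW_cl_mono : Monotone HKW_cl := fun _ _ h =>
  max_le_max le_rfl (min_le_min le_rfl h)

private theorem HKW_cl_nonneg (y : ℝ) : 0 ≤ HKW_cl y := le_max_left _ _

private theorem HKW_cl_le (y : ℝ) : HKW_cl y ≤ 1 := max_le zero_le_one (min_le_left _ _)

private theorem HKW_tr (v δ : ℝ) (hδ : 0 < δ) (y : ℝ) :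
    Pool.Agent.SK.tr0 v δ y = HKW_cl ((y - v) / δ + 1) - HKW_cl ((y - v) / δ) := by
  unfold Pool.Agent.SK.tr0 HKW_cl
  have habs : |y - v| / δ = |(y - v) / δ| := by rw [abs_div, abs_of_pos hδ]
  rw [habs]
  set s := (y - v) / δ
  rcases le_total 0 s with h | h
  · rw [abs_of_nonneg h, min_eq_left (by linarith : (1 : ℝ) ≤ s + 1), max_eq_right zero_le_one]
    rcases le_total s 1 with h' | h'
    · rw [min_eq_right h', max_eq_right h, max_eq_right (by linarith)]
    · rw [min_eq_left h', max_eq_right zero_le_one, max_eq_left (by linarith)]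
      ring
  · rw [abs_of_nonpos h, min_eq_right (by linarith : s + 1 ≤ 1), min_eq_right (by linarith : s ≤ 1),
      max_eq_left h]
    rw [sub_zero, sub_neg_eq_add, add_comm 1 s]

private theorem HKW_log_mono : Monotone fun n : ℕ => Real.log (n : ℝ) := by
  intro a b hab
  rcases Nat.eq_zero_or_pos a with h | h
  · subst h
    simp only [Nat.cast_zero, Real.log_zero]
    exact Real.log_natCast_nonneg b
  · exact Real.log_le_log (by exact_mod_cast h) (by exact_mod_cast hab)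

private theorem HKW_tent (v δ : ℝ) (hδ : 0 < δ) (D : ℕ → ℂ) (U : ℕ) (M : ℝ)
    (hM : ∀ n ≤ U, ‖∑ k ∈ range (n + 1), D k‖ ≤ M) :
    ‖∑ k ∈ range (U + 1), (tl v δ k : ℂ) * D k‖ ≤ 4 * M := by
  have e : ∀ k : ℕ, (tl v δ k : ℂ) =
      (HKW_cl ((Real.log k - v) / δ + 1) : ℂ) - (HKW_cl ((Real.log k - v) / δ) : ℂ) := by
    intro k
    rw [← Complex.ofReal_sub, ← HKW_tr v δ hδ]
    rfl
  have e2 : ∑ k ∈ range (U + 1), (tl v δ k : ℂ) * D k =
      ∑ k ∈ range (U + 1), (HKW_cl ((Real.log k - v) / δ + 1) : ℂ) * D k -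
        ∑ k ∈ range (U + 1), (HKW_cl ((Real.log k - v) / δ) : ℂ) * D k := by
    rw [← sum_sub_distrib]
    exact sum_congr rfl fun k _ => by rw [e k]; ring
  rw [e2]
  have h1 := HKW_mono (fun k => HKW_cl ((Real.log k - v) / δ + 1))
    (fun a b hab => HKW_cl_mono (by
      have := HKW_log_mono hab
      simp only at this
      have h3 : (Real.log a - v) / δ ≤ (Real.log b - v) / δ :=
        div_le_div_of_nonneg_right (by linarith) hδ.le
      linarith)) (fun _ => HKW_cl_nonneg _) (fun _ => HKW_cl_le _) D U M hM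
  have h2 := HKW_mono (fun k => HKW_cl ((Real.log k - v) / δ))
    (fun a b hab => HKW_cl_mono (by
      have := HKW_log_mono hab
      simp only at this
      exact div_le_div_of_nonneg_right (by linarith) hδ.le))
    (fun _ => HKW_cl_nonneg _) (fun _ => HKW_cl_le _) D U M hM
  refine (norm_sub_le _ _).trans ?_
  linarith

private theorem HKW_size (z : ℤ × ℤ) (hz : Fd z) :
    z ∈ Icc (-(2 * nn z : ℤ)) (2 * nn z) ×ˢ Icc (-(2 * nn z : ℤ)) (2 * nn z) := by
  obtain ⟨a, l⟩ := z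
  obtain ⟨_, h⟩ := hz
  simp only [mem_product, mem_Icc]
  unfold nn N8
  simp only at h ⊢
  rw [Int.natCast_natAbs]
  have ha := le_abs_self (a ^ 2 - 8 * l ^ 2)
  have hb := neg_abs_le (a ^ 2 - 8 * l ^ 2)
  rcases h with h | h
  · have h1 : 0 ≤ |l| := abs_nonneg l
    have h2 : |l| ^ 2 = l ^ 2 := sq_abs l
    have h3 := neg_abs_le l
    have h4 := le_abs_self l
    have h5 : 1 ≤ a := by linarith
    have h6 : 16 * |l| ^ 2 ≤ a ^ 2 := by nlinarith
    have h7 : a ≤ a ^ 2 := by nlinarith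
    have h8 : a ≤ 2 * (a ^ 2 - 8 * l ^ 2) := by nlinarith
    refine ⟨⟨?_, ?_⟩, ?_, ?_⟩ <;> linarith
  · have h1 : 0 ≤ |a| := abs_nonneg a
    have h2 : |a| ^ 2 = a ^ 2 := sq_abs a
    have h3 := neg_abs_le a
    have h4 := le_abs_self a
    have h5 : 1 ≤ l := by linarith
    have h6 : |a| ^ 2 ≤ 4 * l ^ 2 := by nlinarith
    have h7 : l ≤ l ^ 2 := by nlinarith
    have h8 : l ≤ 8 * l ^ 2 - a ^ 2 := by nlinarith
    refine ⟨⟨?_, ?_⟩, ?_, ?_⟩ <;> linarith

open scoped Classical in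
private theorem HKW_FF (U n : ℕ) (hn : n ≤ U) :
    ((FF U).filter fun z => nn z ≤ n) = FF n := by
  ext z
  unfold FF
  simp only [mem_filter]
  constructor
  · rintro ⟨⟨_, h1, _⟩, h2⟩
    refine ⟨?_, h1, h2⟩
    have h3 := HKW_size z h1
    simp only [mem_product, mem_Icc] at h3 ⊢
    have h4 : (nn z : ℤ) ≤ n := by exact_mod_cast h2
    obtain ⟨⟨a, b⟩, c, d⟩ := h3
    refine ⟨⟨?_, ?_⟩, ?_, ?_⟩ <;> linarith
  · rintro ⟨h0, h1, h2⟩
    refine ⟨⟨?_, h1, h2.trans hn⟩, h2⟩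
    simp only [mem_product, mem_Icc] at h0 ⊢
    have h4 : (n : ℤ) ≤ U := by exact_mod_cast hn
    obtain ⟨⟨a, b⟩, c, d⟩ := h0
    refine ⟨⟨?_, ?_⟩, ?_, ?_⟩ <;> linarith

open scoped Classical in
private def HKW_D (U : ℕ) (F : ℤ × ℤ → ℂ) (k : ℕ) : ℂ :=
  ∑ z ∈ ((FF U).filter fun z => (nn z).Prime).filter fun z => nn z = k, (Real.log (nn z) : ℂ) * F z

private theorem HKW_D_sum (U n : ℕ) (hn : n ≤ U) (F : ℤ × ℤ → ℂ) :
    ∑ k ∈ range (n + 1), HKW_D U F k = PS n F := by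
  classical
  unfold HKW_D PS
  have h1 : ∑ k ∈ range (n + 1), ∑ z ∈ ((FF U).filter fun z => (nn z).Prime).filter
        fun z => nn z = k, (Real.log (nn z) : ℂ) * F z =
      ∑ k ∈ range (n + 1), ∑ z ∈ (((FF U).filter fun z => (nn z).Prime).filter
        fun z => nn z ≤ n).filter fun z => nn z = k, (Real.log (nn z) : ℂ) * F z := by
    apply sum_congr rfl
    intro k hk
    apply sum_congr _ fun _ _ => rfl
    ext z
    simp only [mem_filter]
    constructor
    · rintro ⟨h1, h2⟩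
      exact ⟨⟨h1, by rw [h2]; exact Nat.lt_succ_iff.1 (mem_range.1 hk)⟩, h2⟩
    · rintro ⟨⟨h1, _⟩, h2⟩
      exact ⟨h1, h2⟩
  rw [h1, sum_fiberwise_of_maps_to (fun z hz => by
    rw [mem_range]
    exact Nat.lt_succ_iff.2 (mem_filter.1 hz).2)]
  apply sum_congr _ fun _ _ => rfl
  rw [← HKW_FF U n hn]
  ext z
  simp only [mem_filter]
  tauto

private theorem HKW_PW (U : ℕ) (w : ℕ → ℝ) (F : ℤ × ℤ → ℂ) :
    PW U w F = ∑ k ∈ range (U + 1), (w k : ℂ) * HKW_D U F k := by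
  classical
  unfold PW HKW_D
  rw [← sum_fiberwise_of_maps_to (s := (FF U).filter fun z => (nn z).Prime) (t := range (U + 1))
    (g := nn) (fun z hz => by
      rw [mem_range]
      have h := (mem_filter.1 hz).1
      unfold FF at h
      exact Nat.lt_succ_iff.2 (mem_filter.1 h).2.2)]
  apply sum_congr rfl
  intro k _
  rw [mul_sum]
  apply sum_congr rfl
  intro z hz
  rw [(mem_filter.1 hz).2]
  push_cast
  ring

theorem HKW (hHKP : HKP_stmt) (hHKT : HKT_stmt) : HKW_stmt := by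
  intro A B
  obtain ⟨C, x₁, hC, hP⟩ := hHKP (A + 1) B
  obtain ⟨C', x₂, hC', hT⟩ := hHKT (A + 1)
  refine ⟨⌈Real.exp (256 * C + 256 * C' + 1)⌉₊ + ⌈x₁⌉₊ + ⌈x₂⌉₊, ?_⟩
  intro x hx v δ hδ
  have hxr : ((⌈Real.exp (256 * C + 256 * C' + 1)⌉₊ + ⌈x₁⌉₊ + ⌈x₂⌉₊ : ℕ) : ℝ) ≤ x := by
    exact_mod_cast hx
  push_cast at hxr
  have g1 := Nat.le_ceil (Real.exp (256 * C + 256 * C' + 1))
  have g2 := Nat.le_ceil x₁
  have g3 := Nat.le_ceil x₂
  have g4 : (0 : ℝ) ≤ ⌈x₁⌉₊ := Nat.cast_nonneg _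
  have g5 : (0 : ℝ) ≤ ⌈x₂⌉₊ := Nat.cast_nonneg _
  have g6 : (0 : ℝ) ≤ ⌈Real.exp (256 * C + 256 * C' + 1)⌉₊ := Nat.cast_nonneg _
  have hex : Real.exp (256 * C + 256 * C' + 1) ≤ x := by linarith
  have hx0 : (0 : ℝ) < x := (Real.exp_pos _).trans_le hex
  have hL : 256 * C + 256 * C' + 1 ≤ Real.log x := (Real.le_log_iff_exp_le hx0).2 hex
  have hL1 : 1 ≤ Real.log x := by nlinarith
  have hx1 : (1 : ℝ) ≤ x := by
    have h : (1 : ℝ) ≤ Real.exp (256 * C + 256 * C' + 1) := Real.one_le_exp (by positivity)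
    linarith
  have hX : (x : ℝ) ≤ 64 * x ^ 2 := by nlinarith
  have hlX : Real.log x ≤ Real.log (64 * x ^ 2) := Real.log_le_log hx0 hX
  set X : ℝ := 64 * (x : ℝ) ^ 2 with hXd
  have hcast : ((64 * x ^ 2 : ℕ) : ℝ) = X := by push_cast; rfl
  -- the common estimate
  have hest : ∀ c : ℝ, 0 < c → 256 * c ≤ Real.log x →
      4 * (c * X / Real.log X ^ (A + 1)) ≤ (x : ℝ) ^ 2 / Real.log x ^ A := by
    intro c hc hcL
    have h1 : c * X / Real.log X ^ (A + 1) ≤ c * X / Real.log x ^ (A + 1) := by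
      apply div_le_div_of_nonneg_left (by positivity) (by positivity)
      exact pow_le_pow_left₀ (by linarith) hlX _
    have h2 : 4 * (c * X / Real.log x ^ (A + 1)) = (256 * c / Real.log x) * ((x : ℝ) ^ 2 / Real.log x ^ A) := by
      rw [hXd, pow_succ]
      field_simp
      ring
    have h3 : 256 * c / Real.log x ≤ 1 := (div_le_one (by linarith)).2 hcL
    have h4 : 0 ≤ (x : ℝ) ^ 2 / Real.log x ^ A := by positivity
    nlinarith
  refine ⟨?_, ?_⟩
  · intro d hd hsq hdB ψ hψ j i hj hi hU hnt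
    rw [HKW_PW]
    refine (HKW_tent v δ hδ _ (64 * x ^ 2) (C * X / Real.log X ^ (A + 1)) ?_).trans
      (hest C hC (by nlinarith))
    intro n hn
    rw [HKW_D_sum _ n hn]
    refine hP X (by linarith) d hd hsq (hdB.trans (pow_le_pow_left₀ (by linarith) hlX _)) ψ hψ j i
      hj hi 0 ?_ hU hnt n ?_
    · rw [abs_zero]
      exact pow_nonneg (by linarith) _
    · rw [← hcast]
      exact_mod_cast hn
  · rw [HKW_PW]
    have h0 : HKW_D (64 * x ^ 2) (fun _ => 1) 0 = 0 := by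
      classical
      have := HKW_D_sum (64 * x ^ 2) 0 (Nat.zero_le _) (fun _ => 1)
      rw [zero_add, sum_range_one] at this
      rw [this]
      unfold PS
      apply sum_eq_zero
      intro z hz
      exfalso
      have h := mem_filter.1 hz
      have h2 := h.1
      unfold FF at h2
      have h3 := (mem_filter.1 h2).2.2
      have h4 := h.2.two_le
      omega
    have h1 : ∑ n ∈ Ioc 0 (64 * x ^ 2), (tl v δ n : ℂ) =
        ∑ k ∈ range (64 * x ^ 2 + 1), (tl v δ k : ℂ) * (if k = 0 then 0 else 1) := by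
      rw [Finset.sum_range_succ']
      simp only [Nat.add_eq_zero_iff, one_ne_zero, and_false, if_false, mul_one, if_true, mul_zero, add_zero]
      rw [Finset.range_eq_Ico, Finset.sum_Ico_add' (fun k : ℕ => (tl v δ k : ℂ)) 0 (64 * x ^ 2) 1]
      apply sum_congr _ fun _ _ => rfl
      ext k
      simp only [mem_Ioc, mem_Ico]
      omega
    rw [h1, ← sum_sub_distrib]
    have h2 : ∑ k ∈ range (64 * x ^ 2 + 1), ((tl v δ k : ℂ) * HKW_D (64 * x ^ 2) (fun _ => 1) k -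
        (tl v δ k : ℂ) * (if k = 0 then 0 else 1)) =
        ∑ k ∈ range (64 * x ^ 2 + 1), (tl v δ k : ℂ) *
          (HKW_D (64 * x ^ 2) (fun _ => 1) k - (if k = 0 then 0 else 1)) :=
      sum_congr rfl fun k _ => by ring
    rw [h2]
    refine (HKW_tent v δ hδ _ (64 * x ^ 2) (C' * X / Real.log X ^ (A + 1)) ?_).trans
      (hest C' hC' (by nlinarith))
    intro n hn
    rw [sum_sub_distrib, HKW_D_sum _ n hn]
    have h3 : ∑ k ∈ range (n + 1), (if k = 0 then (0 : ℂ) else 1) = n := by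
      rw [Finset.sum_range_succ']
      simp
    rw [h3]
    refine hT X (by linarith) n ?_
    rw [← hcast]
    exact_mod_cast hn

end Pool.Agent.FJ
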