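import Pool.Agent.helper94.FJ.SpecP

/-! # PB1: type I blocks -/

set_option autoImplicit false

namespace Pool.Agent.FJ

open Finset ArithmeticFunction MeasureTheory
open Pool.Agent.CH (nit DPb)
open Pool.Agent.SK (tr0 Th muz sml bgf zN uu)
open Pool.Agent.helper85.BVP (tau)

private theorem PB1_cont (M : ℕ) (a : ℕ → ℂ) : Continuous (DPb M a) := by
  unfold DPb nit
  fun_prop

private theorem PB1_nit (t x : ℝ) : ‖nit t x‖ = 1 := by
  unfold nit
  exact Complex.norm_exp_ofReal_mul_I _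

private theorem PB1_norm (M : ℕ) (a : ℕ → ℂ) (t : ℝ) :
    ‖DPb M a t‖ ≤ ∑ m ∈ Ico M (2 * M), ‖a m‖ := by
  unfold DPb
  refine (norm_sum_le _ _).trans (sum_le_sum fun m _ => ?_)
  rw [norm_mul, PB1_nit, mul_one]

private theorem PB1_tau (m : ℕ) (hm : 1 ≤ m) : 1 ≤ tau m := by
  unfold tau
  have : 1 ≤ #m.divisors := Finset.card_pos.2 ⟨1, Nat.one_mem_divisors.2 (by omega)⟩
  exact_mod_cast this

theorem PB1 (hPMV : PMV_stmt) (hPIN : PIN_stmt) (hPB3 : PB3_stmt)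
    (hVDK : Pool.Agent.SK.VDK_stmt) (hTAM : Pool.Agent.SK.TAM_stmt) : PB1_stmt := by
  intro ε hε hε1 A Bq K
  obtain ⟨K₁, N₁, hmv⟩ := hPMV 2 (K + 2)
  obtain ⟨B₁, hB₁⟩ := hPB3 ε hε hε1 K₁ (Bq + 2) (A + 1)
  obtain ⟨N₂, h3⟩ := hB₁ B₁ le_rfl
  obtain ⟨B₀, hB₀⟩ := hPIN ε hε hε1 A (2 * (K + 2 + 2 * 2 ^ K) + 1) (K₁ + 1) B₁
  obtain ⟨Cv, hCv, hvd⟩ := hVDK
  refine ⟨B₀, fun B hB => ?_⟩
  obtain ⟨N₃, h4⟩ := hB₀ B hB
  refine ⟨N₁ + N₂ + N₃ + ⌈Real.exp (256 + 10 * Cv)⌉₊, ?_⟩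
  intro N hN δ hδ1 hδ2 q hq1 hq2 χ h hh E hE f g hfg1 hfg2
  have hNr : Real.exp (256 + 10 * Cv) ≤ N :=
    (Nat.le_ceil _).trans (by exact_mod_cast (by omega : ⌈Real.exp (256 + 10 * Cv)⌉₊ ≤ N))
  have hN0 : (0 : ℝ) < N := (Real.exp_pos _).trans_le hNr
  have hLb : 256 + 10 * Cv ≤ Real.log N := (Real.le_log_iff_exp_le hN0).2 hNr
  set L : ℝ := Real.log N with hLd
  have hL256 : 256 ≤ L := by linarith
  have hL0 : 0 < L := by linarith
  have hL1 : 1 ≤ L := by linarith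
  have hN256 : (256 : ℝ) ≤ N := by
    have := Real.add_one_le_exp (256 + 10 * Cv)
    linarith
  have hf1 : (1 : ℝ) ≤ 2 ^ f := one_le_pow₀ (by norm_num)
  have hg1 : (1 : ℝ) ≤ 2 ^ g := one_le_pow₀ (by norm_num)
  have hfgr : (2 : ℝ) ^ f * 2 ^ g ≤ 8 * (N : ℝ) ^ 3 := by
    rw [← pow_add]
    exact_mod_cast hfg2
  have hfr : (2 : ℝ) ^ f ≤ 8 * (N : ℝ) ^ 3 := by nlinarith
  have hgr : (2 : ℝ) ^ g ≤ 8 * (N : ℝ) ^ 3 := by nlinarith
  have hlog16 : Real.log (16 * (N : ℝ) ^ 3) ≤ 4 * L := by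
    rw [Real.log_mul (by norm_num) (by positivity), Real.log_pow]
    have h16 : Real.log 16 ≤ 3 := by
      rw [show (16 : ℝ) = 2 ^ 4 by norm_num, Real.log_pow]
      have := Real.log_two_lt_d9
      push_cast
      linarith
    push_cast
    linarith
  have hlog : ∀ e : ℕ, (2 : ℝ) ^ e ≤ 8 * (N : ℝ) ^ 3 → ∀ m : ℕ, 1 ≤ m → m ≤ 2 * 2 ^ e →
      Real.log m ≤ 4 * L := by
    intro e he m hm1 hm
    refine le_trans ?_ hlog16
    apply Real.log_le_log (by exact_mod_cast hm1)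
    have : (m : ℝ) ≤ 2 * 2 ^ e := by exact_mod_cast hm
    linarith
  -- coefficients
  set aE : ℕ → ℂ := fun d => ((E d : ℝ) : ℂ) * χ d with haE
  set aB : ℕ → ℂ := fun n => ((bgf (XPc ε N) h n : ℝ) : ℂ) * χ n with haB
  have hEb : ∀ d : ℕ, 2 ^ g ≤ d → d < 2 * 2 ^ g → ‖aE d‖ ≤ L ^ K * tau d ^ K := by
    intro d hd1 hd2
    have hd0 : 1 ≤ d := le_trans Nat.one_le_two_pow hd1
    rw [haE]
    simp only
    rw [norm_mul, Complex.norm_real]
    refine (mul_le_of_le_one_right (norm_nonneg _) (χ.norm_le_one _)).trans ?_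
    rw [Real.norm_eq_abs]
    apply hE d hd0
    have h5 : (d : ℝ) ≤ 2 * 2 ^ g := by exact_mod_cast hd2.le
    have h6 : (d : ℝ) ≤ 64 * (N : ℝ) ^ 3 := by
      have : (0 : ℝ) ≤ (N : ℝ) ^ 3 := by positivity
      linarith
    exact_mod_cast h6
  have hBb : ∀ n : ℕ, 2 ^ f ≤ n → n < 2 * 2 ^ f → ‖aB n‖ ≤ L ^ 2 := by
    intro n hn1 hn2
    have hn0 : 1 ≤ n := le_trans Nat.one_le_two_pow hn1
    rw [haB]
    simp only
    rw [norm_mul, Complex.norm_real]
    refine (mul_le_of_le_one_right (norm_nonneg _) (χ.norm_le_one _)).trans ?_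
    have hl := hlog f hfr n hn0 hn2.le
    have hl0 := Real.log_natCast_nonneg n
    show ‖(if XPc ε N < n then Real.log n ^ h else 0 : ℝ)‖ ≤ L ^ 2
    split_ifs
    · rw [Real.norm_of_nonneg (by positivity)]
      interval_cases h
      · rw [pow_zero]; nlinarith
      · rw [pow_one]; nlinarith
    · rw [norm_zero]; positivity
  have hmvI : ∀ (I : Finset (Fin 2)) (T : ℝ), 1 ≤ T →
      ∫ t in (-T)..T, ‖∏ i ∈ I, DPb ((![2 ^ g, 2 ^ f] : Fin 2 → ℕ) i) ((![aE, aB] : Fin 2 → ℕ → ℂ) i) t‖ ^ 2 ≤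
      (T + ((∏ i ∈ I, (![2 ^ g, 2 ^ f] : Fin 2 → ℕ) i : ℕ) : ℝ)) *
        ((∏ i ∈ I, (![2 ^ g, 2 ^ f] : Fin 2 → ℕ) i : ℕ) : ℝ) * L ^ K₁ := by
    apply hmv N (by omega) (![2 ^ g, 2 ^ f]) (![aE, aB])
    · intro i
      fin_cases i
      · exact Nat.one_le_two_pow
      · exact Nat.one_le_two_pow
    · rw [Fin.prod_univ_two]
      show 2 ^ g * 2 ^ f ≤ 64 * N ^ 3
      rw [← pow_add, add_comm g f]
      omega
    · have hmon : ∀ m : ℕ, 1 ≤ m → ∀ c₁ c₂ : ℕ, c₁ ≤ K + 2 → c₂ ≤ K + 2 →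
          L ^ c₁ * tau m ^ c₂ ≤ L ^ (K + 2) * tau m ^ (K + 2) := by
        intro m hm c₁ c₂ h1 h2
        have ht := PB1_tau m hm
        exact mul_le_mul (pow_le_pow_right₀ hL1 h1) (pow_le_pow_right₀ ht h2) (by positivity)
          (by positivity)
      intro i m hm1 hm2
      fin_cases i
      · change 2 ^ g ≤ m at hm1
        change m < 2 * 2 ^ g at hm2
        exact (hEb m hm1 hm2).trans (hmon m (le_trans Nat.one_le_two_pow hm1) _ _ (by omega) (by omega))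
      · change 2 ^ f ≤ m at hm1
        change m < 2 * 2 ^ f at hm2
        have h5 := hmon m (le_trans Nat.one_le_two_pow hm1) 2 0 (by omega) (by omega)
        rw [pow_zero, mul_one] at h5
        exact (hBb m hm1 hm2).trans h5
  have hN6 : 0 ≤ δ ^ 2 * (N : ℝ) ^ 6 / L ^ A := by positivity
  rcases le_or_gt (2 * 2 ^ f) (XPc ε N) with hcase | hcase
  · -- the second polynomial vanishes
    have hp : ∀ t, DPb (2 ^ f) aB t = 0 := by
      intro t
      unfold DPb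
      apply Finset.sum_eq_zero
      intro n hn
      rw [mem_Ico] at hn
      have : aB n = 0 := by
        rw [haB]
        simp only
        have h5 : (bgf (XPc ε N) h n : ℝ) = 0 := by
          show (if XPc ε N < n then Real.log n ^ h else 0 : ℝ) = 0
          rw [if_neg (by omega)]
        rw [h5, Complex.ofReal_zero, zero_mul]
      rw [this, zero_mul]
    have h5 : ∀ t, ‖DPb (2 ^ g) aE t * DPb (2 ^ f) aB t‖ ^ 2 * wkt δ (1 / L ^ B) t = 0 := by
      intro t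
      rw [hp t, mul_zero, norm_zero]
      ring
    simp only [h5, integral_zero]
    exact hN6
  · -- the main case
    have hNpow : (N : ℝ) ^ (14 / 10 : ℝ) ≤ ((2 ^ f : ℕ) : ℝ) := by
      have h5 : (N : ℝ) ^ (2 - 2 * ε) < XPc ε N + 1 := Nat.lt_floor_add_one _
      have h6 : (N : ℝ) ^ (18 / 10 : ℝ) ≤ (N : ℝ) ^ (2 - 2 * ε) :=
        Real.rpow_le_rpow_of_exponent_le (by linarith) (by linarith)
      have h7 : ((XPc ε N + 1 : ℕ) : ℝ) ≤ ((2 * 2 ^ f : ℕ) : ℝ) := by exact_mod_cast hcase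
      push_cast at h7
      have h8 : (N : ℝ) ^ (18 / 10 : ℝ) = (N : ℝ) ^ (14 / 10 : ℝ) * (N : ℝ) ^ (4 / 10 : ℝ) := by
        rw [← Real.rpow_add hN0]
        norm_num
      have h9 : (2 : ℝ) ≤ (N : ℝ) ^ (4 / 10 : ℝ) := by
        have h10 : (256 : ℝ) ^ (4 / 10 : ℝ) ≤ (N : ℝ) ^ (4 / 10 : ℝ) :=
          Real.rpow_le_rpow (by norm_num) hN256 (by norm_num)
        have h11 : (2 : ℝ) ≤ (256 : ℝ) ^ (4 / 10 : ℝ) := by
          rw [show (256 : ℝ) = 2 ^ (8 : ℝ) by norm_num, ← Real.rpow_mul (by norm_num)]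
          calc (2 : ℝ) = 2 ^ (1 : ℝ) := (Real.rpow_one 2).symm
            _ ≤ 2 ^ (8 * (4 / 10) : ℝ) :=
              Real.rpow_le_rpow_of_exponent_le (by norm_num) (by norm_num)
        linarith
      have h12 : 0 < (N : ℝ) ^ (14 / 10 : ℝ) := by positivity
      push_cast
      nlinarith
    have hpb : ∀ t : ℝ, 1 ≤ |t| → ‖DPb (2 ^ f) aB t‖ ≤
        L ^ (Bq + 2) * (((2 ^ f : ℕ) : ℝ) / |t| + √|t|) := by
      intro t ht
      have h5 := hvd q hq1 χ (2 * 2 ^ f) h (2 ^ f) t hh Nat.one_le_two_pow ht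
      have h6 := hvd q hq1 χ (XPc ε N) h (2 ^ f) t hh Nat.one_le_two_pow ht
      have h7 : DPb (2 ^ f) aB t = DPb (2 ^ f) (fun m => ((sml (2 * 2 ^ f) h m : ℝ) : ℂ) * χ m) t -
          DPb (2 ^ f) (fun m => ((sml (XPc ε N) h m : ℝ) : ℂ) * χ m) t := by
        unfold DPb
        rw [← sum_sub_distrib]
        apply sum_congr rfl
        intro n hn
        rw [mem_Ico] at hn
        have hn0 : 1 ≤ n := le_trans Nat.one_le_two_pow hn.1
        rw [← sub_mul]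
        apply congrArg (fun z : ℂ => z * nit t n)
        rw [haB]
        simp only
        rw [← sub_mul, ← Complex.ofReal_sub]
        apply congrArg (fun z : ℂ => z * χ n)
        apply congrArg Complex.ofReal
        show (if XPc ε N < n then Real.log n ^ h else 0 : ℝ) =
          (if 1 ≤ n ∧ n ≤ 2 * 2 ^ f then Real.log n ^ h else 0) -
            (if 1 ≤ n ∧ n ≤ XPc ε N then Real.log n ^ h else 0)
        rw [if_pos (⟨hn0, hn.2.le⟩ : 1 ≤ n ∧ n ≤ 2 * 2 ^ f)]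
        by_cases h8 : XPc ε N < n
        · rw [if_pos h8, if_neg (by omega), sub_zero]
        · rw [if_neg h8, if_pos (by omega), sub_self]
      rw [h7]
      refine (norm_sub_le _ _).trans ((add_le_add h5 h6).trans ?_)
      have h8 : Real.log (2 * ((2 ^ f : ℕ) : ℝ)) ≤ 4 * L := by
        have := hlog f hfr (2 * 2 ^ f)
          (by have : 1 ≤ 2 ^ f := Nat.one_le_two_pow
              omega) le_rfl
        push_cast at this ⊢
        exact this
      have h9 : 0 ≤ ((2 ^ f : ℕ) : ℝ) / |t| + √|t| := by positivity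
      have h10 : Cv * q * (1 + Real.log (2 * ((2 ^ f : ℕ) : ℝ))) ≤ L ^ (Bq + 2) / 2 := by
        have h11 : Cv * q * (1 + Real.log (2 * ((2 ^ f : ℕ) : ℝ))) ≤ Cv * L ^ Bq * (5 * L) := by
          apply mul_le_mul
          · exact mul_le_mul_of_nonneg_left hq2 hCv.le
          · linarith
          · have : 0 ≤ Real.log (2 * ((2 ^ f : ℕ) : ℝ)) := by
              apply Real.log_nonneg
              push_cast
              linarith
            linarith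
          · positivity
        refine h11.trans ?_
        have h12 : L ^ (Bq + 2) / 2 = L ^ Bq * (L * (L / 2)) := by ring
        have h13 : Cv * L ^ Bq * (5 * L) = L ^ Bq * (L * (5 * Cv)) := by ring
        rw [h12, h13]
        apply mul_le_mul_of_nonneg_left _ (by positivity)
        apply mul_le_mul_of_nonneg_left _ hL0.le
        linarith
      have h14 := mul_le_mul_of_nonneg_right h10 h9
      linarith
    have hQmv : ∀ T : ℝ, 1 ≤ T → ∫ t in (-T)..T, ‖DPb (2 ^ g) aE t‖ ^ 2 ≤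
        (T + ((2 ^ g : ℕ) : ℝ)) * ((2 ^ g : ℕ) : ℝ) * L ^ K₁ := by
      intro T hT
      have h5 := hmvI {0} T hT
      simp only [prod_singleton] at h5
      exact h5
    have hPmv : ∀ T : ℝ, 1 ≤ T → ∫ t in (-T)..T, ‖DPb (2 ^ g) aE t * DPb (2 ^ f) aB t‖ ^ 2 ≤
        (T + (N : ℝ) ^ 3) * (N : ℝ) ^ 3 * L ^ (K₁ + 1) := by
      intro T hT
      have h5 := hmvI univ T hT
      simp only [Fin.prod_univ_two] at h5
      change ∫ t in (-T)..T, ‖DPb (2 ^ g) aE t * DPb (2 ^ f) aB t‖ ^ 2 ≤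
        (T + ((2 ^ g * 2 ^ f : ℕ) : ℝ)) * ((2 ^ g * 2 ^ f : ℕ) : ℝ) * L ^ K₁ at h5
      refine h5.trans ?_
      have h6 : ((2 ^ g * 2 ^ f : ℕ) : ℝ) ≤ 8 * (N : ℝ) ^ 3 := by
        push_cast
        rw [mul_comm]
        exact hfgr
      have h6' : (0 : ℝ) ≤ ((2 ^ g * 2 ^ f : ℕ) : ℝ) := Nat.cast_nonneg _
      rw [pow_succ L K₁]
      have h7 : (T + ((2 ^ g * 2 ^ f : ℕ) : ℝ)) * ((2 ^ g * 2 ^ f : ℕ) : ℝ) ≤
          (T + 8 * (N : ℝ) ^ 3) * (8 * (N : ℝ) ^ 3) :=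
        mul_le_mul (by linarith) h6 h6' (by positivity)
      have h8 : (T + 8 * (N : ℝ) ^ 3) * (8 * (N : ℝ) ^ 3) ≤ (T + (N : ℝ) ^ 3) * (N : ℝ) ^ 3 * L := by
        have h9 : (T + 8 * (N : ℝ) ^ 3) * (8 * (N : ℝ) ^ 3) ≤ (T + (N : ℝ) ^ 3) * (N : ℝ) ^ 3 * 64 := by
          have h10 : (0 : ℝ) ≤ (N : ℝ) ^ 3 := by positivity
          nlinarith
        refine h9.trans ?_
        exact mul_le_mul_of_nonneg_left (by linarith) (by positivity)
      calc (T + ((2 ^ g * 2 ^ f : ℕ) : ℝ)) * ((2 ^ g * 2 ^ f : ℕ) : ℝ) * L ^ K₁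
          ≤ ((T + (N : ℝ) ^ 3) * (N : ℝ) ^ 3 * L) * L ^ K₁ :=
            mul_le_mul_of_nonneg_right (h7.trans h8) (by positivity)
        _ = (T + (N : ℝ) ^ 3) * (N : ℝ) ^ 3 * (L ^ K₁ * L) := by ring
    have hT2 := h3 N (by omega) (2 ^ f) (2 ^ g) (DPb (2 ^ f) aB) (DPb (2 ^ g) aE)
      (PB1_cont _ _) (PB1_cont _ _) Nat.one_le_two_pow Nat.one_le_two_pow
      (by rw [← pow_add]; omega) hNpow hpb hQmv
    have hGb : ∀ t, ‖DPb (2 ^ g) aE t * DPb (2 ^ f) aB t‖ ^ 2 ≤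
        (N : ℝ) ^ 6 * L ^ (2 * (K + 2 + 2 * 2 ^ K) + 1) := by
      intro t
      have h5 : ‖DPb (2 ^ g) aE t‖ ≤ L ^ K * ((2 * 2 ^ g) * (L ^ 2) ^ (2 ^ K)) := by
        refine (PB1_norm _ _ _).trans ?_
        have h6 : ∑ m ∈ Ico (2 ^ g) (2 * 2 ^ g), ‖aE m‖ ≤
            ∑ m ∈ Ioc 0 (2 * 2 ^ g), L ^ K * tau m ^ K := by
          refine (sum_le_sum (g := fun m => L ^ K * tau m ^ K) fun m hm => ?_).trans ?_
          · rw [mem_Ico] at hm
            exact hEb m hm.1 hm.2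
          · apply sum_le_sum_of_subset_of_nonneg
            · intro m hm
              rw [mem_Ico] at hm
              have : 1 ≤ 2 ^ g := Nat.one_le_two_pow
              rw [mem_Ioc]
              omega
            · intro m _ _
              have : 0 ≤ tau m := Pool.Agent.helper85.BVP.tau_nonneg m
              positivity
        refine h6.trans ?_
        rw [← mul_sum]
        apply mul_le_mul_of_nonneg_left _ (by positivity)
        refine ((hTAM K (2 * 2 ^ g)).1).trans ?_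
        push_cast
        apply mul_le_mul_of_nonneg_left _ (by positivity)
        have h8 := hlog g hgr (2 * 2 ^ g)
          (by have : 1 ≤ 2 ^ g := Nat.one_le_two_pow
              omega) le_rfl
        push_cast at h8
        have h9 : 0 ≤ Real.log (2 * 2 ^ g : ℝ) := Real.log_nonneg (by linarith)
        exact pow_le_pow_left₀ (by linarith) (by nlinarith) _
      have h6 : ‖DPb (2 ^ f) aB t‖ ≤ 2 ^ f * L ^ 2 := by
        refine (PB1_norm _ _ _).trans ?_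
        have h7 : ∑ m ∈ Ico (2 ^ f) (2 * 2 ^ f), ‖aB m‖ ≤ ∑ m ∈ Ico (2 ^ f) (2 * 2 ^ f), L ^ 2 :=
          sum_le_sum fun m hm => by
            rw [mem_Ico] at hm
            exact hBb m hm.1 hm.2
        refine h7.trans (le_of_eq ?_)
        rw [sum_const, Nat.card_Ico, nsmul_eq_mul, show 2 * 2 ^ f - 2 ^ f = 2 ^ f by omega]
        push_cast
        ring
      have h7 : ‖DPb (2 ^ g) aE t * DPb (2 ^ f) aB t‖ ≤
          16 * (N : ℝ) ^ 3 * L ^ (K + 2 + 2 * 2 ^ K) := by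
        rw [norm_mul]
        refine (mul_le_mul h5 h6 (norm_nonneg _) (by positivity)).trans ?_
        have h8 : L ^ K * ((2 * 2 ^ g) * (L ^ 2) ^ (2 ^ K)) * (2 ^ f * L ^ 2) =
            2 * (2 ^ f * 2 ^ g) * L ^ (K + 2 + 2 * 2 ^ K) := by
          rw [pow_add, pow_add, pow_mul]
          ring
        rw [h8]
        apply mul_le_mul_of_nonneg_right _ (by positivity)
        linarith
      calc ‖DPb (2 ^ g) aE t * DPb (2 ^ f) aB t‖ ^ 2
          ≤ (16 * (N : ℝ) ^ 3 * L ^ (K + 2 + 2 * 2 ^ K)) ^ 2 :=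
            pow_le_pow_left₀ (norm_nonneg _) h7 2
        _ = (N : ℝ) ^ 6 * (L ^ (2 * (K + 2 + 2 * 2 ^ K)) * 256) := by ring
        _ ≤ (N : ℝ) ^ 6 * (L ^ (2 * (K + 2 + 2 * 2 ^ K)) * L) := by
            apply mul_le_mul_of_nonneg_left _ (by positivity)
            exact mul_le_mul_of_nonneg_left hL256 (by positivity)
        _ = (N : ℝ) ^ 6 * L ^ (2 * (K + 2 + 2 * 2 ^ K) + 1) := by
            rw [pow_succ L (2 * (K + 2 + 2 * 2 ^ K))]
    have hcomm : ∫ t in T2s ε B₁ N, ‖DPb (2 ^ g) aE t * DPb (2 ^ f) aB t‖ ^ 2 ≤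
        (N : ℝ) ^ 6 / L ^ (A + 1) := by
      have e : ∀ t, ‖DPb (2 ^ g) aE t * DPb (2 ^ f) aB t‖ ^ 2 =
          ‖DPb (2 ^ f) aB t * DPb (2 ^ g) aE t‖ ^ 2 := fun t => by rw [mul_comm]
      simp only [e]
      exact hT2
    exact (h4 N (by omega) δ hδ1 hδ2 (fun t => ‖DPb (2 ^ g) aE t * DPb (2 ^ f) aB t‖ ^ 2)
      (((PB1_cont _ _).mul (PB1_cont _ _)).norm.pow 2) (fun t => by positivity) hGb hPmv hcomm).2

end Pool.Agent.FJ
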